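import Pool.Agent.Q260.DT.Stm

set_option autoImplicit false

/-!
Project DT (helper260): the job ST, maximum principle in the strip (helper251).
-/

namespace Pool.Agent.Q251.DT

open Complex Filter Topology Metric Set MeasureTheory
open Pool.Agent.Q260.DS (Sys Nm EE NZ)
open Pool.Agent.Q260.DT
open scoped ComplexConjugate

theorem t_ST (h : S_SZ) : S_ST := by
  intro ϑ f l g hR η hη
  obtain ⟨⟨C1, hC1, hsz⟩, -⟩ := h ϑ f l g hR 1 2 one_pos (by norm_num)
  obtain ⟨K, A, y0, hK, hA, hsys⟩ := hR.sys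
  have hϑ := hR.th
  set W : ℝ := max 1 (4 * (C1 + (ϑ + 1)) / η) with hW
  have hW1 : 1 ≤ W := le_max_left _ _
  have hW2 : 4 * (C1 + (ϑ + 1)) ≤ W * η := by
    rw [← div_le_iff₀ hη]
    exact le_max_right _ _
  refine ⟨W, C1, hW1, hC1, fun T y M hT hy0 hy2 hM x hx => ?_⟩
  have hl1 : 1 ≤ l T := (hsz T 0 0 hT (by norm_num)).1
  have hg0 : 0 < g T := hsys.pos T
  have hM0 : 0 ≤ M := by
    refine (norm_nonneg _).trans (hM (y + I * T) ?_ ?_)
    · simp
    · simp; linarith
  have hexp1 : 1 ≤ Real.exp (η * l T) := Real.one_le_exp (by positivity)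
  have hMg : 0 ≤ M + g T := by linarith
  rcases hy0.eq_or_lt with rfl | hy
  · have hx0 : x = 0 := abs_nonpos_iff.1 hx
    subst hx0
    have h1 : ‖f (((0 : ℝ) : ℂ) + I * T)‖ ≤ M := hM _ (by simp) (by simp; linarith)
    refine h1.trans ?_
    nlinarith
  set B : ℝ := C1 + (ϑ + 1) * W with hB
  set κ : ℝ := B * l T / W ^ 2 with hκ
  have hB0 : 0 < B := by positivity
  have hκ0 : 0 ≤ κ := by positivity
  have hW0 : 0 < W := by linarith
  set hh : ℂ → ℂ := fun w => f w * cexp ((κ : ℂ) * ((w - I * T) ^ 2 - 4)) with hhdef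
  have hdiff : Differentiable ℂ hh := by
    refine hsys.diff.mul ?_
    refine Differentiable.cexp ?_
    exact (((differentiable_id.sub_const _).pow 2).sub_const _).const_mul _
  have hnorm : ∀ w : ℂ, ‖hh w‖ = ‖f w‖ * Real.exp (κ * (w.re ^ 2 - (w.im - T) ^ 2 - 4)) := by
    intro w
    simp only [hhdef]
    rw [norm_mul, Complex.norm_exp]
    congr 2
    rw [Complex.re_ofReal_mul]
    congr 1
    have h1 : (w - I * T) = ((w.re : ℝ) : ℂ) + ((w.im - T : ℝ) : ℂ) * I := by
      apply Complex.ext <;> simp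
    rw [h1]
    simp [pow_two]
  set U : Set ℂ := Ioo (-y) y ×ℂ Ioo (T - W) (T + W) with hU
  have hUb : Bornology.IsBounded U :=
    (Metric.isBounded_Ioo _ _).reProdIm (Metric.isBounded_Ioo _ _)
  have hUo : IsOpen U := isOpen_Ioo.reProdIm isOpen_Ioo
  have hUc : closure U = Icc (-y) y ×ℂ Icc (T - W) (T + W) := by
    rw [hU, Complex.closure_reProdIm, closure_Ioo (by linarith), closure_Ioo (by linarith)]
  have hfr : ∀ z ∈ frontier U, ‖hh z‖ ≤ M + g T := by
    intro z hz
    rw [frontier, hUo.interior_eq, hUc, Set.mem_sdiff, mem_reProdIm] at hz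
    obtain ⟨⟨⟨hr1, hr2⟩, hi1, hi2⟩, hz3⟩ := hz
    rw [hnorm]
    have hre : z.re ^ 2 ≤ 4 := by nlinarith
    by_cases hcase : z.re ∈ Ioo (-y) y
    · have hz4 : z.im ∉ Ioo (T - W) (T + W) := fun h4 => hz3 ((mem_reProdIm).2 ⟨hcase, h4⟩)
      obtain ⟨v, hv, hv2⟩ : ∃ v : ℝ, z.im = T + v ∧ (v = W ∨ v = -W) := by
        refine ⟨z.im - T, by ring, ?_⟩
        rw [mem_Ioo, not_and_or, not_lt, not_lt] at hz4
        rcases hz4 with h5 | h5
        · right; linarith
        · left; linarith
      have h6 := (hsz T v z.re hT (by rw [abs_le]; constructor <;> linarith)).2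
      have h7 : ((z.re : ℝ) : ℂ) + I * ((T + v : ℝ) : ℂ) = z := by
        apply Complex.ext
        · simp
        · simp [hv]
      rw [h7] at h6
      have h8 : (z.im - T) ^ 2 = W ^ 2 := by
        rw [hv]
        rcases hv2 with rfl | rfl <;> ring
      have h9 : C1 * l T - ϑ * v + 1 * |v| ≤ B * l T := by
        have h10 : -ϑ * v + 1 * |v| ≤ (ϑ + 1) * W := by
          rcases hv2 with rfl | rfl
          · rw [abs_of_pos hW0]; nlinarith
          · rw [abs_neg, abs_of_pos hW0]; nlinarith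
        have h11 : (ϑ + 1) * W ≤ (ϑ + 1) * W * l T := by
          have : 0 ≤ (ϑ + 1) * W := by positivity
          nlinarith
        rw [hB]
        nlinarith
      have h12 : κ * (z.re ^ 2 - (z.im - T) ^ 2 - 4) ≤ -(B * l T) := by
        rw [h8]
        have h13 : κ * W ^ 2 = B * l T := by
          rw [hκ]
          field_simp
        nlinarith
      calc ‖f z‖ * Real.exp (κ * (z.re ^ 2 - (z.im - T) ^ 2 - 4))
          ≤ (g T * Real.exp (B * l T)) * Real.exp (-(B * l T)) := by
            refine mul_le_mul (h6.trans ?_) (Real.exp_le_exp.2 h12) (Real.exp_pos _).le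
              (by positivity)
            exact mul_le_mul_of_nonneg_left (Real.exp_le_exp.2 h9) hg0.le
        _ = g T := by rw [mul_assoc, ← Real.exp_add, add_neg_cancel, Real.exp_zero, mul_one]
        _ ≤ M + g T := by linarith
    · have h5 : ‖f z‖ ≤ M := by
        have him : |z.im - T| ≤ W := by rw [abs_le]; constructor <;> linarith
        rw [mem_Ioo, not_and_or, not_lt, not_lt] at hcase
        rcases hcase with h6 | h6
        · have h7 := hR.sym (-(conj z))
          have h8 : -(conj (-(conj z))) = z := by simp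
          rw [h8] at h7
          rw [h7]
          refine hM _ ?_ ?_
          · simp; linarith
          · simpa using him
        · exact hM z (by linarith) him
      have h6 : Real.exp (κ * (z.re ^ 2 - (z.im - T) ^ 2 - 4)) ≤ 1 := by
        rw [Real.exp_le_one_iff]
        nlinarith [sq_nonneg (z.im - T)]
      calc ‖f z‖ * Real.exp (κ * (z.re ^ 2 - (z.im - T) ^ 2 - 4)) ≤ M * 1 :=
            mul_le_mul h5 h6 (Real.exp_pos _).le hM0
        _ ≤ M + g T := by linarith
  have hmem : (x : ℂ) + I * T ∈ closure U := by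
    rw [hUc, mem_reProdIm]
    have h5 := abs_le.1 hx
    simp only [add_re, ofReal_re, mul_re, I_re, zero_mul, I_im, ofReal_im, mul_zero, sub_zero,
      add_zero, add_im, mul_im, one_mul, zero_add, mem_Icc]
    exact ⟨⟨h5.1, h5.2⟩, by linarith, by linarith⟩
  have hmax := Complex.norm_le_of_forall_mem_frontier_norm_le hUb hdiff.diffContOnCl hfr hmem
  rw [hnorm] at hmax
  have him : ((x : ℂ) + I * T).im = T := by simp
  have hre : ((x : ℂ) + I * T).re = x := by simp
  rw [him, hre] at hmax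
  have h4κ : 4 * κ ≤ η * l T := by
    have h5 : 4 * B ≤ η * W ^ 2 := by
      rw [hB]
      nlinarith
    have h6 : κ * W ^ 2 = B * l T := by
      rw [hκ]
      field_simp
    have h7 : (4 * κ) * W ^ 2 ≤ (η * l T) * W ^ 2 := by nlinarith
    exact le_of_mul_le_mul_right h7 (by positivity)
  have h5 : 1 ≤ Real.exp (η * l T) * Real.exp (κ * (x ^ 2 - (T - T) ^ 2 - 4)) := by
    rw [← Real.exp_add]
    apply Real.one_le_exp
    nlinarith [sq_nonneg x]
  calc ‖f (x + I * T)‖ ≤ ‖f (x + I * T)‖ * (Real.exp (η * l T) *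
        Real.exp (κ * (x ^ 2 - (T - T) ^ 2 - 4))) := le_mul_of_one_le_right (norm_nonneg _) h5
    _ = Real.exp (η * l T) * (‖f (x + I * T)‖ *
        Real.exp (κ * (x ^ 2 - (T - T) ^ 2 - 4))) := by ring
    _ ≤ Real.exp (η * l T) * (M + g T) := by gcongr

end Pool.Agent.Q251.DT
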